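import Pool.Agent.helper55.BL.Spec

set_option autoImplicit false

namespace Pool.Agent.helper55.BL

open Finset
open scoped Classical
open Pool.Agent.helper61.BM (Clo dg)

/-- the symmetric form of `TP` -/
structure TWP_Q {V : Type} (G : SimpleGraph V) (m : ℕ) (p : ℕ → V) (a t i q : ℕ) (P Q : List V) : Prop where
  hi : i < a
  hq : t < q
  hm : q ≤ m
  p₁ : Pa G P
  p₂ : Pa G Q
  dj : P.Disjoint Q
  hd : (P.head? = some (p i) ∧ Q.head? = some (p a)) ∨ (P.head? = some (p a) ∧ Q.head? = some (p i))
  l₁ : P.getLast? = some (p t)
  l₂ : Q.getLast? = some (p q)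
  lo : ∀ j, j < a → (p j ∈ P ∨ p j ∈ Q) → j = i
  up : ∀ j, t < j → j ≤ m → (p j ∈ P ∨ p j ∈ Q) → j = q

theorem TWP_toTP {V : Type} {G : SimpleGraph V} {m : ℕ} {p : ℕ → V} {a t i q : ℕ} {P Q : List V}
    (h : TWP_Q G m p a t i q P Q) : ∃ R₁ R₂, TP G m p a t i q R₁ R₂ := by
  rcases h.hd with ⟨h1, h2⟩ | ⟨h1, h2⟩
  · exact ⟨P, Q, ⟨h.hi, h.hq, h.hm, h.p₁, h.p₂, h.dj, h1, h2, Or.inr ⟨h.l₁, h.l₂⟩, h.lo, h.up⟩⟩
  · exact ⟨Q, P, ⟨h.hi, h.hq, h.hm, h.p₂, h.p₁, h.dj.symm, h2, h1, Or.inl ⟨h.l₂, h.l₁⟩,
      fun j hj hh => h.lo j hj hh.symm, fun j hj hjm hh => h.up j hj hjm hh.symm⟩⟩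

/-- appending a vertex to a path -/
theorem TWP_snoc {V : Type} {G : SimpleGraph V} {l : List V} {x y : V} (h : Pa G l)
    (hl : l.getLast? = some x) (hxy : G.Adj x y) (hy : y ∉ l) : Pa G (l ++ [y]) := by
  refine ⟨?_, ?_⟩
  · rw [List.nodup_append]
    refine ⟨h.1, List.nodup_singleton y, ?_⟩
    intro u hu v hv huv
    rw [List.mem_singleton] at hv
    exact hy (hv ▸ huv ▸ hu)
  · rw [List.isChain_append]
    refine ⟨h.2, List.isChain_singleton y, ?_⟩
    intro u hu v hv
    rw [hl] at hu
    simp only [List.head?_cons, Option.mem_def, Option.some.injEq] at hu hv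
    subst hu; subst hv
    exact hxy

/-- switching from a path to another one at a common vertex -/
theorem TWP_switch {V : Type} {G : SimpleGraph V} {A B l : List V} {w : V} (h : Pa G (A ++ w :: B))
    (hl : Pa G l) (hw : l.head? = some w) (hd : ∀ v ∈ A, v ∉ l) : Pa G (A ++ l) := by
  refine ⟨?_, ?_⟩
  · rw [List.nodup_append]
    refine ⟨(List.nodup_append.1 h.1).1, hl.1, ?_⟩
    intro u hu v hv huv
    exact hd u hu (huv ▸ hv)
  · rw [List.isChain_append]
    have h2 := h.2
    rw [List.isChain_append] at h2
    refine ⟨h2.1, hl.2, ?_⟩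
    intro u hu v hv
    rw [hw] at hv
    refine h2.2.2 u hu v ?_
    simpa using hv

theorem TWP_head {V : Type} {A B l : List V} {w : V} (hw : l.head? = some w) :
    (A ++ l).head? = (A ++ w :: B).head? := by
  cases A with
  | nil => simpa using hw
  | cons a A => simp

theorem TWP_last {V : Type} {A l : List V} {z : V} (hz : l.getLast? = some z) :
    (A ++ l).getLast? = some z := by
  rw [List.getLast?_append, hz]
  rfl

theorem TWP_ind (hSHP : SHP_stmt) {V : Type} [Fintype V] {G : SimpleGraph V} {m : ℕ} {p : ℕ → V}
    (hG : Two G) (hp : Pth G m p) (a : ℕ) (ha : 0 < a) :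
    ∀ k, a + k < m → ∃ i q P Q, TWP_Q G m p a (a + k) i q P Q := by
  intro k
  induction k with
  | zero =>
    intro ham
    rw [Nat.add_zero] at ham
    obtain ⟨l, hl, hx, ⟨s, hs, hls⟩, ⟨t, ht, hlt⟩, hS, hT⟩ := hSHP V G hG (p a)
      ((Finset.range a).image p) ((Finset.Icc (a + 1) m).image p)
      (by
        intro h
        obtain ⟨j, hj, hj2⟩ := Finset.mem_image.1 h
        rw [Finset.mem_range] at hj
        have := hp.inj j a (by omega) (by omega) hj2
        omega)
      (by
        intro h
        obtain ⟨j, hj, hj2⟩ := Finset.mem_image.1 h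
        rw [Finset.mem_Icc] at hj
        have := hp.inj j a (by omega) (by omega) hj2
        omega)
      ⟨p 0, Finset.mem_image.2 ⟨0, Finset.mem_range.2 ha, rfl⟩⟩
      ⟨p m, Finset.mem_image.2 ⟨m, Finset.mem_Icc.2 ⟨by omega, le_rfl⟩, rfl⟩⟩
    obtain ⟨i, hi, rfl⟩ := Finset.mem_image.1 hs
    obtain ⟨q, hq, rfl⟩ := Finset.mem_image.1 ht
    rw [Finset.mem_range] at hi
    rw [Finset.mem_Icc] at hq
    refine ⟨i, q, [p a], l, ⟨hi, by omega, hq.2, ⟨List.nodup_singleton _, List.isChain_singleton _⟩, hl, ?_,
      Or.inr ⟨rfl, hls⟩, rfl, hlt, ?_, ?_⟩⟩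
    · intro v hv hv'
      rw [List.mem_singleton] at hv
      exact hx (hv ▸ hv')
    · rintro j hj (h | h)
      · rw [List.mem_singleton] at h
        have := hp.inj j a (by omega) (by omega) h
        omega
      · have h2 := hS _ h (Finset.mem_image.2 ⟨j, Finset.mem_range.2 hj, rfl⟩)
        rw [hls, Option.some.injEq] at h2
        exact (hp.inj i j (by omega) (by omega) h2).symm
    · rintro j hj hjm (h | h)
      · rw [List.mem_singleton] at h
        have := hp.inj j a (by omega) (by omega) h
        omega
      · have h2 := hT _ h (Finset.mem_image.2 ⟨j, Finset.mem_Icc.2 ⟨by omega, hjm⟩, rfl⟩)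
        rw [hlt, Option.some.injEq] at h2
        exact (hp.inj q j (by omega) (by omega) h2).symm
  | succ k ih =>
    intro ham
    obtain ⟨i, q, P, Q, h⟩ := ih (by omega)
    have hadj : G.Adj (p (a + k)) (p (a + (k + 1))) := hp.adj (a + k) (by omega)
    have hi := h.hi
    have hqt := h.hq
    have hqm := h.hm
    by_cases hq : q = a + (k + 1)
    · -- the second case
      have hPx : p (a + (k + 1)) ∉ P := by
        intro hx
        have h3 : p (a + (k + 1)) ∈ Q := by
          rw [← hq]
          exact List.mem_of_getLast? h.l₂
        exact h.dj hx h3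
      obtain ⟨l, hl, hx, ⟨w, hw, hlw⟩, ⟨t, ht, hlt⟩, hS, hT⟩ := hSHP V G hG (p (a + (k + 1)))
        ((P.toFinset ∪ Q.toFinset ∪ (Finset.range a).image p).erase (p (a + (k + 1))))
        ((Finset.Icc (a + k + 2) m).image p)
        (Finset.notMem_erase _ _)
        (by
          intro hh
          obtain ⟨j, hj, hj2⟩ := Finset.mem_image.1 hh
          rw [Finset.mem_Icc] at hj
          have := hp.inj j (a + (k + 1)) (by omega) (by omega) hj2
          omega)
        ⟨p i, Finset.mem_erase.2 ⟨fun e => by
          have := hp.inj i (a + (k + 1)) (by omega) (by omega) e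
          omega, Finset.mem_union_right _ (Finset.mem_image.2 ⟨i, Finset.mem_range.2 hi, rfl⟩)⟩⟩
        ⟨p m, Finset.mem_image.2 ⟨m, Finset.mem_Icc.2 ⟨by omega, le_rfl⟩, rfl⟩⟩
      obtain ⟨q', hq', rfl⟩ := Finset.mem_image.1 ht
      rw [Finset.mem_Icc] at hq'
      have hupl : ∀ j, a + (k + 1) < j → j ≤ m → p j ∈ l → j = q' := by
        intro j hj hjm hjl
        have h2 := hT _ hjl (Finset.mem_image.2 ⟨j, Finset.mem_Icc.2 ⟨by omega, hjm⟩, rfl⟩)
        rw [hlt, Option.some.injEq] at h2
        exact (hp.inj q' j (by omega) (by omega) h2).symm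
      have hlS : ∀ v ∈ l, (v ∈ P ∨ v ∈ Q ∨ ∃ j, j < a ∧ p j = v) → v = w := by
        intro v hv hh
        have h2 := hS v hv (Finset.mem_erase.2 ⟨fun e => hx (e ▸ hv), by
          rcases hh with hh | hh | ⟨j, hj, hh⟩
          · exact Finset.mem_union_left _ (Finset.mem_union_left _ (List.mem_toFinset.2 hh))
          · exact Finset.mem_union_left _ (Finset.mem_union_right _ (List.mem_toFinset.2 hh))
          · exact Finset.mem_union_right _ (Finset.mem_image.2 ⟨j, Finset.mem_range.2 hj, hh⟩)⟩)
        rw [hlw, Option.some.injEq] at h2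
        exact h2.symm
      have hupPQ : ∀ j, a + (k + 1) < j → j ≤ m → (p j ∈ P ∨ p j ∈ Q) → False := by
        intro j hj hjm hh
        have := h.up j (by omega) hjm hh
        omega
      rw [Finset.mem_erase] at hw
      obtain ⟨hwx, hw⟩ := hw
      have hsnocP : Pa G (P ++ [p (a + (k + 1))]) := TWP_snoc h.p₁ h.l₁ hadj hPx
      by_cases hwP : w ∈ P
      · -- cut `P` at `w`
        obtain ⟨A, B, hAB⟩ := List.append_of_mem hwP
        have hAP : ∀ v ∈ A, v ∈ P := fun v hv => by
          rw [hAB]
          exact List.mem_append_left _ hv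
        have hwQ : w ∉ Q := fun hh => h.dj hwP hh
        have hwA : w ∉ A := by
          have hnd := h.p₁.1
          rw [hAB, List.nodup_append] at hnd
          intro hh
          exact hnd.2.2 w hh w (List.mem_cons_self) rfl
        have hAl : ∀ v ∈ A, v ∉ l := by
          intro v hv hvl
          have := hlS v hvl (Or.inl (hAP v hv))
          exact hwA (this ▸ hv)
        refine ⟨i, q', Q, A ++ l, ⟨hi, by omega, by omega, h.p₂, ?_, ?_, ?_, ?_, ?_, ?_, ?_⟩⟩
        · have := h.p₁
          rw [hAB] at this
          exact TWP_switch this hl hlw hAl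
        · intro v hv hv'
          rcases List.mem_append.1 hv' with hv' | hv'
          · exact h.dj (hAP v hv') hv
          · have := hlS v hv' (Or.inr (Or.inl hv))
            exact hwQ (this ▸ hv)
        · have hh : (A ++ l).head? = P.head? := by
            rw [hAB]
            exact TWP_head hlw
          rw [hh]
          rcases h.hd with ⟨h1, h2⟩ | ⟨h1, h2⟩
          · exact Or.inr ⟨h2, h1⟩
          · exact Or.inl ⟨h2, h1⟩
        · rw [h.l₂, hq]
        · exact TWP_last hlt
        · rintro j hj (hh | hh)
          · exact h.lo j hj (Or.inr hh)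
          · rcases List.mem_append.1 hh with hh | hh
            · exact h.lo j hj (Or.inl (hAP _ hh))
            · have := hlS _ hh (Or.inr (Or.inr ⟨j, hj, rfl⟩))
              exact h.lo j hj (Or.inl (this ▸ hwP))
        · rintro j hj hjm (hh | hh)
          · exact (hupPQ j hj hjm (Or.inr hh)).elim
          · rcases List.mem_append.1 hh with hh | hh
            · exact (hupPQ j hj hjm (Or.inl (hAP _ hh))).elim
            · exact hupl j hj hjm hh
      · by_cases hwQ : w ∈ Q
        · -- cut `Q` at `w`
          obtain ⟨A, B, hAB⟩ := List.append_of_mem hwQ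
          have hAQ : ∀ v ∈ A, v ∈ Q := fun v hv => by
            rw [hAB]
            exact List.mem_append_left _ hv
          have hnd := h.p₂.1
          rw [hAB, List.nodup_append] at hnd
          have hwA : w ∉ A := fun hh => hnd.2.2 w hh w (List.mem_cons_self) rfl
          have hxA : p (a + (k + 1)) ∉ A := by
            intro hh
            have hlast := h.l₂
            rw [hAB, hq, List.getLast?_append] at hlast
            have hB : p (a + (k + 1)) ∈ w :: B := by
              have : (w :: B).getLast? = some (p (a + (k + 1))) := by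
                rw [List.getLast?_cons] at hlast ⊢
                simpa using hlast
              exact List.mem_of_getLast? this
            exact hnd.2.2 _ hh _ hB rfl
          have hAl : ∀ v ∈ A, v ∉ l := by
            intro v hv hvl
            have := hlS v hvl (Or.inr (Or.inl (hAQ v hv)))
            exact hwA (this ▸ hv)
          refine ⟨i, q', P ++ [p (a + (k + 1))], A ++ l, ⟨hi, by omega, by omega, hsnocP, ?_, ?_, ?_, ?_, ?_, ?_, ?_⟩⟩
          · have := h.p₂
            rw [hAB] at this
            exact TWP_switch this hl hlw hAl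
          · intro v hv hv'
            rcases List.mem_append.1 hv with hv | hv
            · rcases List.mem_append.1 hv' with hv' | hv'
              · exact h.dj hv (hAQ v hv')
              · have := hlS v hv' (Or.inl hv)
                exact hwP (this ▸ hv)
            · rw [List.mem_singleton] at hv
              rcases List.mem_append.1 hv' with hv' | hv'
              · exact hxA (hv ▸ hv')
              · exact hx (hv ▸ hv')
          · have hh : (A ++ l).head? = Q.head? := by
              rw [hAB]
              exact TWP_head hlw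
            have hh2 : (P ++ [p (a + (k + 1))]).head? = P.head? := by
              rcases h.hd with ⟨h1, _⟩ | ⟨h1, _⟩
              · rw [List.head?_append, h1]; rfl
              · rw [List.head?_append, h1]; rfl
            rw [hh, hh2]
            exact h.hd
          · exact TWP_last rfl
          · exact TWP_last hlt
          · rintro j hj (hh | hh)
            · rcases List.mem_append.1 hh with hh | hh
              · exact h.lo j hj (Or.inl hh)
              · rw [List.mem_singleton] at hh
                have := hp.inj j (a + (k + 1)) (by omega) (by omega) hh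
                omega
            · rcases List.mem_append.1 hh with hh | hh
              · exact h.lo j hj (Or.inr (hAQ _ hh))
              · have := hlS _ hh (Or.inr (Or.inr ⟨j, hj, rfl⟩))
                exact h.lo j hj (Or.inr (this ▸ hwQ))
          · rintro j hj hjm (hh | hh)
            · rcases List.mem_append.1 hh with hh | hh
              · exact (hupPQ j hj hjm (Or.inl hh)).elim
              · rw [List.mem_singleton] at hh
                have := hp.inj j (a + (k + 1)) (by omega) (by omega) hh
                omega
            · rcases List.mem_append.1 hh with hh | hh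
              · exact (hupPQ j hj hjm (Or.inr (hAQ _ hh))).elim
              · exact hupl j hj hjm hh
        · -- `w = p j` is new
          obtain ⟨j₀, hj₀, hpj₀⟩ : ∃ j, j < a ∧ p j = w := by
            rcases Finset.mem_union.1 hw with hw | hw
            · rcases Finset.mem_union.1 hw with hw | hw
              · exact (hwP (List.mem_toFinset.1 hw)).elim
              · exact (hwQ (List.mem_toFinset.1 hw)).elim
            · obtain ⟨j, hj, hj2⟩ := Finset.mem_image.1 hw
              exact ⟨j, Finset.mem_range.1 hj, hj2⟩
          have hlo' : ∀ j, j < a → p j ∈ l → j = j₀ := by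
            intro j hj hjl
            have := hlS _ hjl (Or.inr (Or.inr ⟨j, hj, rfl⟩))
            exact hp.inj j j₀ (by omega) (by omega) (this.trans hpj₀.symm)
          have hPl : ∀ v ∈ P, v ∉ l := fun v hv hvl => hwP ((hlS v hvl (Or.inl hv)) ▸ hv)
          have hQl : ∀ v ∈ Q, v ∉ l := fun v hv hvl => hwQ ((hlS v hvl (Or.inr (Or.inl hv))) ▸ hv)
          rcases h.hd with ⟨h1, h2⟩ | ⟨h1, h2⟩
          · -- `Q` starts at `p a`
            have hiP : p i ∈ P := List.mem_of_head? h1
            refine ⟨j₀, q', Q, l, ⟨hj₀, by omega, by omega, h.p₂, hl, ?_, Or.inr ⟨h2, by rw [hpj₀]; exact hlw⟩, ?_, hlt, ?_, ?_⟩⟩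
            · intro v hv hv'
              exact hQl v hv hv'
            · rw [h.l₂, hq]
            · rintro j hj (hh | hh)
              · have := h.lo j hj (Or.inr hh)
                rw [this] at hh
                exact (h.dj hiP hh).elim
              · exact hlo' j hj hh
            · rintro j hj hjm (hh | hh)
              · exact (hupPQ j hj hjm (Or.inr hh)).elim
              · exact hupl j hj hjm hh
          · -- `P` starts at `p a`
            have hiQ : p i ∈ Q := List.mem_of_head? h2
            refine ⟨j₀, q', P ++ [p (a + (k + 1))], l, ⟨hj₀, by omega, by omega, hsnocP, hl, ?_,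
              Or.inr ⟨?_, by rw [hpj₀]; exact hlw⟩, TWP_last rfl, hlt, ?_, ?_⟩⟩
            · intro v hv hv'
              rcases List.mem_append.1 hv with hv | hv
              · exact hPl v hv hv'
              · rw [List.mem_singleton] at hv
                exact hx (hv ▸ hv')
            · rw [List.head?_append, h1]; rfl
            · rintro j hj (hh | hh)
              · rcases List.mem_append.1 hh with hh | hh
                · have := h.lo j hj (Or.inl hh)
                  rw [this] at hh
                  exact (h.dj hh hiQ).elim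
                · rw [List.mem_singleton] at hh
                  have := hp.inj j (a + (k + 1)) (by omega) (by omega) hh
                  omega
              · exact hlo' j hj hh
            · rintro j hj hjm (hh | hh)
              · rcases List.mem_append.1 hh with hh | hh
                · exact (hupPQ j hj hjm (Or.inl hh)).elim
                · rw [List.mem_singleton] at hh
                  have := hp.inj j (a + (k + 1)) (by omega) (by omega) hh
                  omega
              · exact hupl j hj hjm hh
    · -- the first case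
      have hx : ∀ R : List V, (p (a + (k + 1)) ∈ P ∨ p (a + (k + 1)) ∈ Q) → False := by
        intro _ hh
        exact hq (h.up _ (by omega) (by omega) hh).symm
      refine ⟨i, q, P ++ [p (a + (k + 1))], Q, ⟨hi, by omega, hqm,
        TWP_snoc h.p₁ h.l₁ hadj (fun hh => hx [] (Or.inl hh)), h.p₂, ?_, ?_, TWP_last rfl, h.l₂, ?_, ?_⟩⟩
      · intro v hv hv'
        rcases List.mem_append.1 hv with hv | hv
        · exact h.dj hv hv'
        · rw [List.mem_singleton] at hv
          exact hx [] (Or.inr (hv ▸ hv'))
      · have hh2 : (P ++ [p (a + (k + 1))]).head? = P.head? := by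
          rcases h.hd with ⟨h1, _⟩ | ⟨h1, _⟩
          · rw [List.head?_append, h1]; rfl
          · rw [List.head?_append, h1]; rfl
        rw [hh2]
        exact h.hd
      · rintro j hj (hh | hh)
        · rcases List.mem_append.1 hh with hh | hh
          · exact h.lo j hj (Or.inl hh)
          · rw [List.mem_singleton] at hh
            have := hp.inj j (a + (k + 1)) (by omega) (by omega) hh
            omega
        · exact h.lo j hj (Or.inr hh)
      · rintro j hj hjm (hh | hh)
        · rcases List.mem_append.1 hh with hh | hh
          · exact h.up j (by omega) hjm (Or.inl hh)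
          · rw [List.mem_singleton] at hh
            have := hp.inj j (a + (k + 1)) (by omega) (by omega) hh
            omega
        · exact h.up j (by omega) hjm (Or.inr hh)

theorem TWP (hSHP : SHP_stmt) : TWP_stmt := by
  intro V _ G m p hG hp a t ha hat htm
  obtain ⟨k, rfl⟩ := Nat.exists_eq_add_of_le hat
  obtain ⟨i, q, P, Q, h⟩ := TWP_ind hSHP hG hp a ha k htm
  obtain ⟨R₁, R₂, hR⟩ := TWP_toTP h
  exact ⟨i, q, R₁, R₂, hR⟩

end Pool.Agent.helper55.BL
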